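import Pool.Agent.Run7.h745.Assembly
import Pool.Agent.Run7.h745.Sys1c
import Pool.Agent.Run7.h745.Sys2
import Pool.Agent.Run7.h745.Sys3
import Pool.Agent.Run7.h745.OBc
import Pool.Agent.Run7.h745.KTe
import Pool.Agent.Run7.h745.KHb
import Pool.Agent.Run7.h745.KT3
import Pool.Agent.Run7.h745.Prt
import Pool.Agent.Run7.h745.Psi
import Pool.Agent.Run7.h745.CPc
import Pool.Agent.Run7.h745.FK2
import Pool.Agent.Run7.h745.Ub
import Pool.Agent.Run7.h745.QTof
import Pool.Agent.Run7.h745.Root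
import Pool.Agent.Run7.h305.CX.AV
import Pool.Agent.Run7.h305.CX.CP4b
import Pool.Agent.Run7.h305.CX.G1
import Pool.Agent.Run7.h305.CX.G2
import Pool.Agent.Run7.h305.CX.QTR
import Pool.Agent.Run7.h305.CX.RC
import Pool.Agent.Run7.h305.CX.L

/-!
# MP_456758_an: crossed products with the same Elliott invariant and the same radius of comparison
which are not isomorphic

`A₁` is the crossed product of a minimal system `(X₁, T₁)`, and `A₂ = M_2(A₁)` is the crossed
product of the tower of height two over it.  The first system is a space of two-sided words whose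
free letters have values either in an infinite dimensional contractible space (the product of the
cones over all real projective spaces of even dimension) or in the cone over `RP^4`.

* `K_0(A₁)` is generated by the classes of the indicator functions of the bases of the towers; it
  is uniquely 2-divisible and 2-unperforated, so `A₁` and `M_2(A₁)` have the same Elliott invariant.
* Both radii of comparison are infinite, by a triangular Borsuk-Ulam theorem.
* The tracial state concentrated on the second type of letters gives an invariant which is scaled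
  by the passage to `M_2(A₁)`, but finite and not zero; so the two algebras are not isomorphic.
-/

set_option autoImplicit false

noncomputable section

namespace Pool.Agent.Results.MP_456758_an.SameEllSameRc

open Run7.h745 Filter Topology Matrix Pool.Agent.TH249
open scoped ENNReal NNReal

/-- There are compact metric spaces `X₁`, `X₂` and minimal homeomorphisms `T₁`, `T₂` whose crossed
products `A₁`, `A₂` have the same Elliott invariant and the same radius of comparison (which is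
infinite) and are not isomorphic. -/
theorem result :
    ∃ (X₁ : Type) (_ : MetricSpace X₁) (_ : CompactSpace X₁) (_ : Infinite X₁)
      (X₂ : Type) (_ : MetricSpace X₂) (_ : CompactSpace X₂) (_ : Infinite X₂)
      (T₁ : X₁ ≃ₜ X₁) (T₂ : X₂ ≃ₜ X₂)
      (A₁ : Type) (_ : CStarAlgebra A₁) (ι₁ : C(X₁, ℂ) →⋆ₐ[ℂ] A₁) (u₁ : unitary A₁)
      (A₂ : Type) (_ : CStarAlgebra A₂) (ι₂ : C(X₂, ℂ) →⋆ₐ[ℂ] A₂) (u₂ : unitary A₂),
      IsMinimalHomeo T₁ ∧ IsMinimalHomeo T₂ ∧
      IsCrossedProduct T₁ ι₁ u₁ ∧ IsCrossedProduct T₂ ι₂ u₂ ∧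
      SameElliott A₁ A₂ ∧
      radComp A₁ = radComp A₂ ∧ radComp A₁ = ⊤ ∧ Nonempty (QT A₁) ∧ Nonempty (QT A₂) ∧
      IsEmpty (A₁ ≃⋆ₐ[ℂ] A₂) := by
  obtain ⟨X₁, m₁, c₁, i₁, X₂, m₂, c₂, i₂, T₁, T₂, A₁, a₁, ι₁, u₁, A₂, a₂, ι₂, u₂, h1, h2, h3, h4,
    h5, h6, h7, h8⟩ := assembly sys1 sys2 sys3a sys3b sys3c cp1 cp2 cp3 Run7.h305.CX.cp4
      Run7.h305.CX.av kap ell kh prt1 prt2 prt3 psi kt3 kt fk1 fk2 pr1 pr2 Run7.h305.CX.g1
      Run7.h305.CX.g2 u0 u1 hu ob Run7.h305.CX.l_lower Run7.h305.CX.qtr Run7.h305.CX.rc_top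
  have hτ : Nonempty (TracialState A₁) := by
    obtain ⟨π, hπ⟩ := cp2 X₁ T₁ A₁ ι₁ u₁ h3
    obtain ⟨x⟩ : Nonempty X₁ := inferInstance
    obtain ⟨τ, -⟩ := Run7.h305.CX.av X₁ T₁ A₁ ι₁ u₁ π h3 hπ (hyperfilter ℕ) id (fun _ => x)
      (tendsto_id.mono_left Nat.hyperfilter_le_atTop)
    exact ⟨τ⟩
  obtain ⟨τ⟩ := hτ
  have h5' := h5
  obtain ⟨φ₀, φT, -⟩ := h5'
  rw [← radComp_eq] at h6 h7
  exact ⟨X₁, m₁, c₁, i₁, X₂, m₂, c₂, i₂, T₁, T₂, A₁, a₁, ι₁, u₁, A₂, a₂, ι₂, u₂, h1, h2, h3, h4,
    h5, h6.trans h7.symm, h6, ⟨τ.toQT⟩, ⟨(φT.symm τ).toQT⟩, h8⟩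

end Pool.Agent.Results.MP_456758_an.SameEllSameRc
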